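import Pool.Agent.Zk16.M.Big

/-! Integral points on Mordell curves: all `d`. -/

set_option autoImplicit false

namespace Pool.Agent.Zk16.M

open Finset Pool.Agent.Zk16.Y

theorem irr_neg {x y : ℤ} (h : Irr x y) : Irr x (-y) := by
  intro ρ h0
  apply h (-ρ)
  linear_combination -h0

theorem c20000 : (20000 : ℝ) ^ ((39 : ℝ) / 25) ≤ 200 ^ 3 := by
  have h1 : (20000 : ℝ) ^ ((39 : ℝ) / 25) = ((20000 : ℝ) ^ (39 : ℝ)) ^ ((1 : ℝ) / 25) := by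
    rw [← Real.rpow_mul (by norm_num)]
    norm_num
  have h2 : (200 : ℝ) ^ 3 = (((200 : ℝ) ^ 3) ^ (25 : ℝ)) ^ ((1 : ℝ) / 25) := by
    rw [← Real.rpow_mul (by norm_num)]
    norm_num
  rw [h1, h2]
  apply Real.rpow_le_rpow (by positivity) _ (by norm_num)
  have h3 : (20000 : ℝ) ^ (39 : ℝ) = 20000 ^ 39 := by norm_cast
  have h4 : ((200 : ℝ) ^ 3) ^ (25 : ℝ) = (200 ^ 3) ^ 25 := by norm_cast
  rw [h3, h4]
  norm_num

theorem all_points (hPTS : S_PTS) (hSMD : S_SMD) (hSMX : S_SMX) (hRDU : S_RDU) (A : ℝ) :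
    ∃ c C : ℝ, 0 < c ∧ c < 1 ∧ 0 < C ∧ ∀ Z : ℝ, 1 ≤ Z → ∀ S : Finset (ℤ × ℤ),
      (∀ e ∈ S, e.1 ^ 3 ≠ e.2 ^ 2 ∧ |((e.1 ^ 3 - e.2 ^ 2 : ℤ) : ℝ)| ≤ Z ∧ |(e.1 : ℝ)| ≤ Z ^ A) →
      (S.card : ℝ) ≤ C * Z ^ (1 - c) := by
  classical
  set A₁ : ℝ := max A 1 with hA₁
  have hA1 : 1 ≤ A₁ := le_max_right _ _
  have hA0 : 0 < A₁ := by linarith
  obtain ⟨c₀, C₀, hc₀, hC₀, h0⟩ := big hPTS (60 * A₁) (by linarith)
  obtain ⟨C₁, hC₁, h1⟩ := hSMD (1 / (12 * A₁)) (by positivity)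
  obtain ⟨C₂, hC₂, h2⟩ := hSMX
  obtain ⟨C₃, hC₃, h3⟩ := hRDU
  set c₁ : ℝ := min c₀ (1 / 2) with hc₁
  have hc10 : 0 < c₁ := lt_min hc₀ (by norm_num)
  have hc11 : c₁ ≤ 1 / 2 := min_le_right _ _
  have hc1c : c₁ ≤ c₀ := min_le_left _ _
  set c : ℝ := min (c₁ / 2) (1 / 20) with hc
  have hc0 : 0 < c := lt_min (by positivity) (by norm_num)
  have hca : c ≤ c₁ / 2 := min_le_left _ _
  have hcb : c ≤ 1 / 20 := min_le_right _ _
  refine ⟨c, C₃ + 2 * C₁ + C₂ + (1 + 4 / c₁) * (2 * C₀) * 2, hc0, by linarith, by positivity, ?_⟩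
  intro Z hZ S hS
  have hZ0 : 0 < Z := by linarith
  set P : ℝ := Z ^ (1 - c) with hP
  have hPp : 0 ≤ P := by positivity
  have hZ1P : ∀ t : ℝ, t ≤ 19 / 20 → Z ^ t ≤ P := fun t ht =>
    Real.rpow_le_rpow_of_exponent_le hZ (by linarith)
  set SR := S.filter (fun e => ¬ Irr e.1 e.2) with hSR
  set SD := S.filter (fun e => Irr e.1 e.2 ∧ |((e.1 ^ 3 - e.2 ^ 2 : ℤ) : ℝ)| ≤ Z ^ ((1 : ℝ) / 20)) with hSD
  set SX := S.filter (fun e => |(e.1 : ℝ)| ≤ 200 * Z ^ ((13 : ℝ) / 25)) with hSX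
  set J : ℕ := Nat.log 2 ⌊Z⌋₊ + 1 with hJ
  set Sp : ℕ → Finset (ℤ × ℤ) := fun i => S.filter (fun e => Irr e.1 e.2 ∧
    ¬ |((e.1 ^ 3 - e.2 ^ 2 : ℤ) : ℝ)| ≤ Z ^ ((1 : ℝ) / 20) ∧
    ¬ |(e.1 : ℝ)| ≤ 200 * Z ^ ((13 : ℝ) / 25) ∧ 0 < e.2 ∧
    Nat.log 2 (e.1 ^ 3 - e.2 ^ 2).natAbs = i) with hSp
  set Sm : ℕ → Finset (ℤ × ℤ) := fun i => S.filter (fun e => Irr e.1 e.2 ∧
    ¬ |((e.1 ^ 3 - e.2 ^ 2 : ℤ) : ℝ)| ≤ Z ^ ((1 : ℝ) / 20) ∧
    ¬ |(e.1 : ℝ)| ≤ 200 * Z ^ ((13 : ℝ) / 25) ∧ e.2 < 0 ∧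
    Nat.log 2 (e.1 ^ 3 - e.2 ^ 2).natAbs = i) with hSm
  have hcov : S ⊆ ((SR ∪ SD) ∪ SX) ∪ (range J).biUnion (fun i => Sp i ∪ Sm i) := by
    intro e he
    obtain ⟨e1, e2, e3⟩ := hS e he
    by_cases k1 : Irr e.1 e.2
    swap
    · exact mem_union_left _ (mem_union_left _ (mem_union_left _ (mem_filter.mpr ⟨he, k1⟩)))
    by_cases k2 : |((e.1 ^ 3 - e.2 ^ 2 : ℤ) : ℝ)| ≤ Z ^ ((1 : ℝ) / 20)
    · exact mem_union_left _ (mem_union_left _ (mem_union_right _ (mem_filter.mpr ⟨he, k1, k2⟩)))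
    by_cases k3 : |(e.1 : ℝ)| ≤ 200 * Z ^ ((13 : ℝ) / 25)
    · exact mem_union_left _ (mem_union_right _ (mem_filter.mpr ⟨he, k3⟩))
    apply mem_union_right
    rw [mem_biUnion]
    have hn : ((e.1 ^ 3 - e.2 ^ 2).natAbs : ℝ) ≤ Z := by
      rw [Nat.cast_natAbs]
      push_cast at e2 ⊢
      exact e2
    have hy : e.2 ≠ 0 := by
      intro h
      apply k3
      rw [h] at e2
      have e4 : |(e.1 : ℝ)| ^ 3 ≤ Z := by
        rw [← abs_pow]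
        push_cast at e2
        simpa using e2
      have e5 : |(e.1 : ℝ)| ≤ Z ^ ((1 : ℝ) / 3) := by
        calc |(e.1 : ℝ)| = (|(e.1 : ℝ)| ^ 3) ^ ((1 : ℝ) / 3) := by
              rw [← Real.rpow_natCast, ← Real.rpow_mul (abs_nonneg _)]
              norm_num
          _ ≤ Z ^ ((1 : ℝ) / 3) := Real.rpow_le_rpow (by positivity) e4 (by norm_num)
      have e6 : Z ^ ((1 : ℝ) / 3) ≤ Z ^ ((13 : ℝ) / 25) :=
        Real.rpow_le_rpow_of_exponent_le hZ (by norm_num)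
      have e7 : 0 ≤ Z ^ ((13 : ℝ) / 25) := by positivity
      linarith
    refine ⟨Nat.log 2 (e.1 ^ 3 - e.2 ^ 2).natAbs, ?_, ?_⟩
    · rw [mem_range, hJ]
      have := Nat.log_mono_right (b := 2) (Nat.le_floor hn)
      omega
    · rcases lt_or_gt_of_ne hy with hy | hy
      · exact mem_union_right _ (mem_filter.mpr ⟨he, k1, k2, k3, hy, rfl⟩)
      · exact mem_union_left _ (mem_filter.mpr ⟨he, k1, k2, k3, hy, rfl⟩)
  have bR : (SR.card : ℝ) ≤ C₃ * P := by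
    refine (h3 Z SR hZ (fun e he => ?_)).trans ?_
    · obtain ⟨he, k⟩ := mem_filter.mp he
      exact ⟨(hS e he).1, k, (hS e he).2.1⟩
    · have := hZ1P (3 / 4) (by norm_num)
      gcongr
  have hH : ∀ e ∈ S, max (|(e.1 : ℝ)| ^ 3) ((e.2 : ℝ) ^ 2) ≤ 2 * Z ^ (3 * A₁) := by
    intro e he
    obtain ⟨e1, e2, e3⟩ := hS e he
    have e4 : |(e.1 : ℝ)| ^ 3 ≤ Z ^ (3 * A₁) := by
      calc |(e.1 : ℝ)| ^ 3 ≤ (Z ^ A₁) ^ 3 := by
            apply pow_le_pow_left₀ (abs_nonneg _)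
            exact e3.trans (Real.rpow_le_rpow_of_exponent_le hZ (le_max_left _ _))
        _ = Z ^ (3 * A₁) := by
            rw [← Real.rpow_natCast, ← Real.rpow_mul hZ0.le]
            congr 1
            push_cast
            ring
    have e5 : Z ≤ Z ^ (3 * A₁) := by
      calc Z = Z ^ (1 : ℝ) := (Real.rpow_one Z).symm
        _ ≤ Z ^ (3 * A₁) := Real.rpow_le_rpow_of_exponent_le hZ (by linarith)
    have e6 : 0 ≤ Z ^ (3 * A₁) := by positivity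
    apply max_le
    · linarith
    · push_cast at e2
      have e7 := (abs_le.mp e2).1
      have e8 : (e.1 : ℝ) ^ 3 ≤ |(e.1 : ℝ)| ^ 3 := by
        rw [← abs_pow]
        exact le_abs_self _
      linarith
  have bD : (SD.card : ℝ) ≤ 2 * C₁ * P := by
    have hb := h1 (Z ^ ((1 : ℝ) / 20)) (2 * Z ^ (3 * A₁)) SD
      (Real.one_le_rpow hZ (by norm_num))
      (by
        have := Real.one_le_rpow hZ (show 0 ≤ 3 * A₁ by positivity)
        linarith)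
      (fun e he => by
        obtain ⟨he, k1, k2⟩ := mem_filter.mp he
        exact ⟨(hS e he).1, k1, k2, hH e he⟩)
    refine hb.trans ?_
    have e1 : (Z ^ ((1 : ℝ) / 20)) ^ 10 = Z ^ ((1 : ℝ) / 2) := by
      rw [← Real.rpow_natCast, ← Real.rpow_mul hZ0.le]
      norm_num
    have e2 : (2 * Z ^ (3 * A₁)) ^ (1 / (12 * A₁)) ≤ 2 * Z ^ ((1 : ℝ) / 4) := by
      rw [Real.mul_rpow (by norm_num) (by positivity), ← Real.rpow_mul hZ0.le]
      have e3 : 3 * A₁ * (1 / (12 * A₁)) = 1 / 4 := by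
        field_simp
        norm_num
      rw [e3]
      have e4 : (2 : ℝ) ^ (1 / (12 * A₁)) ≤ 2 := by
        calc (2 : ℝ) ^ (1 / (12 * A₁)) ≤ 2 ^ (1 : ℝ) := by
              apply Real.rpow_le_rpow_of_exponent_le (by norm_num)
              rw [div_le_one (by positivity)]
              linarith
          _ = 2 := Real.rpow_one 2
      gcongr
    calc C₁ * (Z ^ ((1 : ℝ) / 20)) ^ 10 * (2 * Z ^ (3 * A₁)) ^ (1 / (12 * A₁))
        ≤ C₁ * Z ^ ((1 : ℝ) / 2) * (2 * Z ^ ((1 : ℝ) / 4)) := by rw [e1]; gcongr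
      _ = 2 * C₁ * (Z ^ ((1 : ℝ) / 2) * Z ^ ((1 : ℝ) / 4)) := by ring
      _ = 2 * C₁ * Z ^ ((1 : ℝ) / 2 + 1 / 4) := by rw [Real.rpow_add hZ0]
      _ ≤ 2 * C₁ * P := by
          have := hZ1P (1 / 2 + 1 / 4) (by norm_num)
          gcongr
  have bX : (SX.card : ℝ) ≤ C₂ * P := by
    refine (h2 Z SX hZ (fun e he => ?_)).trans ?_
    · obtain ⟨he, k⟩ := mem_filter.mp he
      exact ⟨(hS e he).2.1, k⟩
    · have := hZ1P (19 / 20) le_rfl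
      gcongr
  -- one dyadic interval
  have key : ∀ (i : ℕ) (T : Finset (ℤ × ℤ)), (∀ e ∈ T, (e.1 ^ 3 ≠ e.2 ^ 2 ∧
      |((e.1 ^ 3 - e.2 ^ 2 : ℤ) : ℝ)| ≤ Z ∧ max (|(e.1 : ℝ)| ^ 3) ((e.2 : ℝ) ^ 2) ≤ 2 * Z ^ (3 * A₁)) ∧
      Irr e.1 e.2 ∧
      ¬ |((e.1 ^ 3 - e.2 ^ 2 : ℤ) : ℝ)| ≤ Z ^ ((1 : ℝ) / 20) ∧
      ¬ |(e.1 : ℝ)| ≤ 200 * Z ^ ((13 : ℝ) / 25) ∧ 0 < e.2 ∧
      Nat.log 2 (e.1 ^ 3 - e.2 ^ 2).natAbs = i) → (T.card : ℝ) ≤ C₀ * Z ^ (1 - c₁) := by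
    intro i T hT
    rcases T.eq_empty_or_nonempty with h | ⟨e0, he0⟩
    · rw [h]
      simp only [card_empty, Nat.cast_zero]
      positivity
    have hi1 : (1 : ℝ) ≤ 2 ^ i := one_le_pow₀ (by norm_num)
    have hcl : ∀ e ∈ T, (2 : ℝ) ^ i ≤ |((e.1 ^ 3 - e.2 ^ 2 : ℤ) : ℝ)| ∧
        |((e.1 ^ 3 - e.2 ^ 2 : ℤ) : ℝ)| ≤ 2 * 2 ^ i := by
      intro e he
      obtain ⟨⟨k1, -, -⟩, -, -, -, -, k6⟩ := hT e he
      have hne : (e.1 ^ 3 - e.2 ^ 2).natAbs ≠ 0 := by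
        rw [Int.natAbs_ne_zero]
        exact sub_ne_zero.mpr k1
      have u1 := Nat.pow_log_le_self 2 hne
      have u2 := Nat.lt_pow_succ_log_self (b := 2) (by norm_num) (e.1 ^ 3 - e.2 ^ 2).natAbs
      rw [k6] at u1 u2
      have u3 : ((e.1 ^ 3 - e.2 ^ 2).natAbs : ℝ) = |((e.1 ^ 3 - e.2 ^ 2 : ℤ) : ℝ)| := by
        rw [Nat.cast_natAbs, Int.cast_abs]
      rw [← u3]
      constructor
      · exact_mod_cast u1
      · have u4 : (e.1 ^ 3 - e.2 ^ 2).natAbs ≤ 2 * 2 ^ i := by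
          have u5 : 2 ^ (i + 1) = 2 * 2 ^ i := by ring
          rw [Nat.succ_eq_add_one, u5] at u2
          exact u2.le
        exact_mod_cast u4
    have hiZ : (2 : ℝ) ^ i ≤ Z := (hcl e0 he0).1.trans (hT e0 he0).1.2.1
    have hlow : Z ^ ((1 : ℝ) / 20) ≤ 2 * 2 ^ i := by
      have k3 := (hT e0 he0).2.2.1
      push Not at k3
      exact k3.le.trans (hcl e0 he0).2
    have hb := h0 (2 ^ i) T hi1 (by
      intro e he
      obtain ⟨⟨k1, k2, k3⟩, k4, k5, k6, k7, k8⟩ := hT e he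
      refine ⟨k1, k4, k7, (hcl e he).1, (hcl e he).2, ?_, ?_⟩
      · refine le_trans ?_ (le_max_left _ _)
        push Not at k6
        have f1 : 200 * ((2 : ℝ) ^ i) ^ ((13 : ℝ) / 25) ≤ |(e.1 : ℝ)| := by
          refine le_trans ?_ k6.le
          have := Real.rpow_le_rpow (by positivity) hiZ (show (0 : ℝ) ≤ 13 / 25 by norm_num)
          linarith
        have f2 : (20000 * (2 : ℝ) ^ i) ^ ((39 : ℝ) / 25) ≤
            (200 * ((2 : ℝ) ^ i) ^ ((13 : ℝ) / 25)) ^ 3 := by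
          rw [Real.mul_rpow (by norm_num) (by positivity), mul_pow]
          have f3 : (((2 : ℝ) ^ i) ^ ((13 : ℝ) / 25)) ^ 3 = ((2 : ℝ) ^ i) ^ ((39 : ℝ) / 25) := by
            rw [← Real.rpow_natCast (((2 : ℝ) ^ i) ^ ((13 : ℝ) / 25)), ← Real.rpow_mul (by positivity)]
            norm_num
          rw [f3]
          have := c20000
          gcongr
        exact f2.trans (pow_le_pow_left₀ (by positivity) f1 3)
      · refine k3.trans ?_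
        have f1 : 2 * Z ^ ((1 : ℝ) / 20) ≤ 20000 * 2 ^ i := by linarith
        have f2 : (2 * Z ^ ((1 : ℝ) / 20)) ^ (60 * A₁) ≤ (20000 * (2 : ℝ) ^ i) ^ (60 * A₁) :=
          Real.rpow_le_rpow (by positivity) f1 (by positivity)
        refine le_trans ?_ f2
        rw [Real.mul_rpow (by norm_num) (by positivity), ← Real.rpow_mul hZ0.le]
        have f3 : (1 : ℝ) / 20 * (60 * A₁) = 3 * A₁ := by ring
        rw [f3]
        have f4 : (2 : ℝ) ≤ 2 ^ (60 * A₁) := by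
          calc (2 : ℝ) = 2 ^ (1 : ℝ) := (Real.rpow_one 2).symm
            _ ≤ 2 ^ (60 * A₁) := Real.rpow_le_rpow_of_exponent_le (by norm_num) (by linarith)
        gcongr)
    refine hb.trans ?_
    have g1 : ((2 : ℝ) ^ i) ^ (1 - c₀) ≤ ((2 : ℝ) ^ i) ^ (1 - c₁) :=
      Real.rpow_le_rpow_of_exponent_le hi1 (by linarith)
    have g2 : ((2 : ℝ) ^ i) ^ (1 - c₁) ≤ Z ^ (1 - c₁) :=
      Real.rpow_le_rpow (by positivity) hiZ (by linarith)
    have g3 := g1.trans g2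
    gcongr
  have bp : ∀ i, ((Sp i).card : ℝ) ≤ C₀ * Z ^ (1 - c₁) := by
    intro i
    apply key i
    intro e he
    obtain ⟨he, k⟩ := mem_filter.mp he
    exact ⟨⟨(hS e he).1, (hS e he).2.1, hH e he⟩, k⟩
  have bm : ∀ i, ((Sm i).card : ℝ) ≤ C₀ * Z ^ (1 - c₁) := by
    intro i
    have hinj : Set.InjOn (fun e : ℤ × ℤ => (e.1, -e.2)) (Sm i) := by
      intro e _ f _ h
      simp only [Prod.mk.injEq, neg_inj] at h
      exact Prod.ext h.1 h.2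
    rw [← card_image_of_injOn hinj]
    apply key i
    intro e he
    obtain ⟨f, hf, rfl⟩ := mem_image.mp he
    obtain ⟨hf, k1, k2, k3, k4, k5⟩ := mem_filter.mp hf
    have hH' := hH f hf
    refine ⟨⟨?_, ?_, ?_⟩, irr_neg k1, ?_, k3, ?_, ?_⟩
    · simpa using (hS f hf).1
    · simpa using (hS f hf).2.1
    · simpa using hH'
    · simpa using k2
    · show 0 < -f.2
      omega
    · simpa using k5
  have hJb : (J : ℝ) ≤ (1 + 4 / c₁) * Z ^ (c₁ / 2) := by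
    have hfl : ⌊Z⌋₊ ≠ 0 := by
      have : 1 ≤ ⌊Z⌋₊ := Nat.le_floor (by exact_mod_cast hZ)
      omega
    have u1 := Nat.pow_log_le_self 2 hfl
    have u2 : (2 : ℝ) ^ Nat.log 2 ⌊Z⌋₊ ≤ Z := by
      have : (2 : ℝ) ^ Nat.log 2 ⌊Z⌋₊ ≤ ⌊Z⌋₊ := by exact_mod_cast u1
      exact this.trans (Nat.floor_le hZ0.le)
    have u3 : (Nat.log 2 ⌊Z⌋₊ : ℝ) * Real.log 2 ≤ Real.log Z := by
      rw [← Real.log_pow]
      exact Real.log_le_log (by positivity) u2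
    have u4 : (Nat.log 2 ⌊Z⌋₊ : ℝ) ≤ 2 * Real.log Z := by
      have hl2 : (1 : ℝ) / 2 ≤ Real.log 2 := by linarith [Real.log_two_gt_d9]
      have hn : (0 : ℝ) ≤ Nat.log 2 ⌊Z⌋₊ := Nat.cast_nonneg _
      nlinarith
    have u5 := Real.log_le_rpow_div (x := Z) hZ0.le (ε := c₁ / 2) (by positivity)
    have u6 : 1 ≤ Z ^ (c₁ / 2) := Real.one_le_rpow hZ (by positivity)
    have u7 : 2 * (Z ^ (c₁ / 2) / (c₁ / 2)) = 4 / c₁ * Z ^ (c₁ / 2) := by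
      field_simp
      ring
    rw [hJ]
    push_cast
    nlinarith
  have hsum : ((((range J).biUnion (fun i => Sp i ∪ Sm i)).card : ℕ) : ℝ) ≤
      (1 + 4 / c₁) * (2 * C₀) * P := by
    have v1 : ((((range J).biUnion (fun i => Sp i ∪ Sm i)).card : ℕ) : ℝ) ≤
        J * (2 * C₀ * Z ^ (1 - c₁)) := by
      calc ((((range J).biUnion (fun i => Sp i ∪ Sm i)).card : ℕ) : ℝ)
          ≤ ∑ i ∈ range J, (((Sp i ∪ Sm i).card : ℕ) : ℝ) := by exact_mod_cast card_biUnion_le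
        _ ≤ ∑ _i ∈ range J, (2 * C₀ * Z ^ (1 - c₁)) := by
            apply sum_le_sum
            intro i _
            have v2 : (((Sp i ∪ Sm i).card : ℕ) : ℝ) ≤ (Sp i).card + (Sm i).card := by
              exact_mod_cast card_union_le _ _
            have := bp i
            have := bm i
            linarith
        _ = _ := by rw [sum_const, card_range, nsmul_eq_mul]
    refine v1.trans ?_
    have v3 : Z ^ (c₁ / 2) * Z ^ (1 - c₁) ≤ P := by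
      rw [← Real.rpow_add hZ0]
      exact Real.rpow_le_rpow_of_exponent_le hZ (by linarith)
    calc (J : ℝ) * (2 * C₀ * Z ^ (1 - c₁)) ≤
          ((1 + 4 / c₁) * Z ^ (c₁ / 2)) * (2 * C₀ * Z ^ (1 - c₁)) := by gcongr
      _ = (1 + 4 / c₁) * (2 * C₀) * (Z ^ (c₁ / 2) * Z ^ (1 - c₁)) := by ring
      _ ≤ _ := by gcongr
  have k1 := card_le_card hcov
  have k2 := card_union_le ((SR ∪ SD) ∪ SX) ((range J).biUnion (fun i => Sp i ∪ Sm i))
  have k3 := card_union_le (SR ∪ SD) SX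
  have k4 := card_union_le SR SD
  have k6 : (S.card : ℝ) ≤ ((SR.card + SD.card + SX.card : ℕ) : ℝ) +
      ((((range J).biUnion (fun i => Sp i ∪ Sm i)).card : ℕ) : ℝ) := by
    have : S.card ≤ SR.card + SD.card + SX.card +
        ((range J).biUnion (fun i => Sp i ∪ Sm i)).card := by omega
    exact_mod_cast this
  push_cast at k6
  have hW : 0 ≤ (1 + 4 / c₁) * (2 * C₀) * P := by positivity
  nlinarith

end Pool.Agent.Zk16.M
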