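import Pool.Agent.Zk16.M.Stms

/-! Integral points on Mordell curves: the count for `d` in a dyadic interval. -/

set_option autoImplicit false

namespace Pool.Agent.Zk16.M

open Finset Pool.Agent.Zk16.Y

/-- BIG: the points with large abscissa for `d` in a dyadic interval -/
theorem big (hPTS : S_PTS) (A : ℝ) (hA : 1 ≤ A) : ∃ c C : ℝ, 0 < c ∧ 1 ≤ C ∧
    ∀ (Y : ℝ) (S : Finset (ℤ × ℤ)), 1 ≤ Y →
    (∀ e ∈ S, e.1 ^ 3 ≠ e.2 ^ 2 ∧ Irr e.1 e.2 ∧ 0 < e.2 ∧
      Y ≤ |((e.1 ^ 3 - e.2 ^ 2 : ℤ) : ℝ)| ∧ |((e.1 ^ 3 - e.2 ^ 2 : ℤ) : ℝ)| ≤ 2 * Y ∧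
      (20000 * Y) ^ ((39 : ℝ) / 25) ≤ max (|(e.1 : ℝ)| ^ 3) ((e.2 : ℝ) ^ 2) ∧
      max (|(e.1 : ℝ)| ^ 3) ((e.2 : ℝ) ^ 2) ≤ (20000 * Y) ^ A) →
    (S.card : ℝ) ≤ C * Y ^ (1 - c) := by
  obtain ⟨c, C, hc, hC, h⟩ := hPTS (1 / 100) A (by norm_num) hA
  refine ⟨c, C * 20000, hc, by nlinarith, ?_⟩
  intro Y S hY hS
  have hY0 : 0 < Y := by linarith
  set Z : ℝ := 20000 * Y with hZdef
  have hZ : 1 ≤ Z := by rw [hZdef]; linarith
  have hZ0 : 0 < Z := by linarith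
  set R : ℝ := Z ^ ((1 : ℝ) / 4) with hR
  have hR4 : R ^ 4 = Z := by
    rw [hR, ← Real.rpow_natCast, ← Real.rpow_mul hZ0.le]
    norm_num
  have hb := h Z R 1 1 1 S hZ
    (Real.rpow_le_rpow_of_exponent_le hZ (by norm_num))
    (by
      calc R ≤ Z ^ (1 : ℝ) := Real.rpow_le_rpow_of_exponent_le hZ (by norm_num)
        _ = Z := Real.rpow_one Z)
    le_rfl (by
      rw [Nat.cast_one]
      exact Real.one_le_rpow hZ (by linarith)) le_rfl (dvd_refl 1)
    (by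
      rw [Nat.cast_one, one_mul, one_mul]
      exact Real.rpow_le_rpow_of_exponent_le hZ (by norm_num))
    (by
      have : rd 1 = 1 := by simp [rd]
      rw [this, Nat.cast_one]
      exact Real.one_le_rpow hZ (by norm_num))
    squarefree_one (dvd_refl 1) (by
      intro e he
      obtain ⟨h1, h2, h3, h4, h5, h6, h7⟩ := hS e he
      push_cast at h4 h5
      refine ⟨⟨0, -e.1, 2 * e.2, ?_⟩, ?_, h7⟩
      · refine ⟨h3, h1, ?_, ?_, le_rfl, ?_, ?_, ?_, ?_, ?_, h2⟩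
        · rw [hR4, Nat.cast_one]
          linarith
        · rw [hR4, Nat.cast_one]
          linarith
        · push_cast
          ring
        · push_cast
          ring
        · simpa using isCoprime_one_left
        · simp
        · intro ℓ hℓ hd
          have := Nat.le_of_dvd one_pos hd
          have := hℓ.two_le
          omega
      · refine le_trans (le_of_eq ?_) h6
        rw [hR, ← Real.rpow_add hZ0, ← Real.rpow_natCast, ← Real.rpow_mul hZ0.le]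
        norm_num)
  refine hb.trans (le_of_eq_of_le ?_ (?_ : C * Z * Z ^ (-c) ≤ C * 20000 * Y ^ (1 - c)))
  · rw [hR4, Nat.cast_one, div_one]
  · have e1 : Z ^ (-c) ≤ Y ^ (-c) := by
      apply Real.rpow_le_rpow_of_nonpos hY0 (by rw [hZdef]; linarith) (by linarith)
    have e2 : Y * Y ^ (-c) = Y ^ (1 - c) := by
      rw [sub_eq_add_neg, Real.rpow_add hY0, Real.rpow_one]
    calc C * Z * Z ^ (-c) ≤ C * Z * Y ^ (-c) := by gcongr
      _ = C * 20000 * (Y * Y ^ (-c)) := by rw [hZdef]; ring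
      _ = _ := by rw [e2]

end Pool.Agent.Zk16.M
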