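import Pool.Agent.Zk16.M.Stms
import Pool.Agent.Zk16.X.H

/-! Integral points on Mordell curves: the points whose cubic has an integral root. -/

set_option autoImplicit false

namespace Pool.Agent.Zk16.M

open Finset Pool.Agent.Zk16.X

theorem box_card {a b : ℝ} (ha : 0 ≤ a) (hb : 0 ≤ b) :
    (((Icc (-⌊a⌋) ⌊a⌋ ×ˢ Icc (-⌊b⌋) ⌊b⌋).card : ℕ) : ℝ) ≤ (2 * a + 1) * (2 * b + 1) := by
  rw [card_product]
  push_cast
  have h1 := card_Icc_floor ha
  have h2 := card_Icc_floor hb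
  gcongr

theorem t_RDU : S_RDU := by
  classical
  refine ⟨100, by norm_num, ?_⟩
  intro Y S hY hS
  have hY0 : 0 < Y := by linarith
  set v : ℝ := Y ^ ((1 : ℝ) / 4) with hv
  have hv1 : 1 ≤ v := Real.one_le_rpow hY (by norm_num)
  have hv4 : v ^ 4 = Y := by
    rw [hv, ← Real.rpow_natCast, ← Real.rpow_mul hY0.le]
    norm_num
  have hv3 : Y ^ ((3 : ℝ) / 4) = v ^ 3 := by
    rw [hv, ← Real.rpow_natCast, ← Real.rpow_mul hY0.le]
    norm_num
  set B1 : Finset (ℤ × ℤ) := Icc (-⌊v⌋) ⌊v⌋ ×ˢ Icc (-⌊4 * v ^ 2⌋) ⌊4 * v ^ 2⌋ with hB1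
  set B2 : Finset (ℤ × ℤ) := Icc (-⌊2 * v ^ 2⌋) ⌊2 * v ^ 2⌋ ×ˢ Icc (-⌊4 * v⌋) ⌊4 * v⌋ with hB2
  have hcov : ∀ e ∈ S, ∃ w ∈ B1 ∪ B2, (w.1 + w.2 ^ 2 = e.1 ∧
      3 * e.1 * w.2 - w.2 ^ 3 = 2 * e.2) := by
    intro e he
    obtain ⟨h1, h2, h3⟩ := hS e he
    simp only [Irr, not_forall, not_not] at h2
    obtain ⟨ρ, hρ⟩ := h2
    set u : ℤ := e.1 - ρ ^ 2 with hu
    set w : ℤ := 4 * e.1 - ρ ^ 2 with hw
    have h4 : u ^ 2 * w = 4 * (e.1 ^ 3 - e.2 ^ 2) := by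
      have h5 : 2 * e.2 = 3 * e.1 * ρ - ρ ^ 3 := by linear_combination hρ
      have h6 : 4 * e.2 ^ 2 = (3 * e.1 * ρ - ρ ^ 3) ^ 2 := by rw [← h5]; ring
      rw [hu, hw]
      linear_combination h6
    have hne : e.1 ^ 3 - e.2 ^ 2 ≠ 0 := sub_ne_zero.mpr h1
    have hu0 : u ≠ 0 := by
      intro h
      rw [h] at h4
      apply hne
      linarith
    have hw0 : w ≠ 0 := by
      intro h
      rw [h] at h4
      apply hne
      linarith
    have h7 : (u : ℝ) ^ 2 * |(w : ℝ)| ≤ 4 * Y := by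
      have h8 : ((u : ℝ) ^ 2 * (w : ℝ)) = 4 * ((e.1 ^ 3 - e.2 ^ 2 : ℤ) : ℝ) := by exact_mod_cast h4
      have h9 := congrArg abs h8
      rw [abs_mul, abs_mul, abs_of_nonneg (sq_nonneg (u : ℝ)),
        abs_of_pos (by norm_num : (0 : ℝ) < 4)] at h9
      rw [h9]
      linarith
    have hw1 : (1 : ℝ) ≤ |(w : ℝ)| := by
      have := Int.one_le_abs hw0
      exact_mod_cast this
    have hu1 : (1 : ℝ) ≤ |(u : ℝ)| := by
      have := Int.one_le_abs hu0
      exact_mod_cast this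
    have hus : (u : ℝ) ^ 2 = |(u : ℝ)| ^ 2 := (sq_abs _).symm
    rw [hus] at h7
    set a : ℝ := |(u : ℝ)| with ha
    have hρ3 : 3 * (ρ : ℝ) ^ 2 = w - 4 * u := by
      have : 3 * ρ ^ 2 = w - 4 * u := by rw [hw, hu]; ring
      exact_mod_cast this
    have hρb : 3 * (ρ : ℝ) ^ 2 ≤ |(w : ℝ)| + 4 * a := by
      have k1 := le_abs_self (w : ℝ)
      have k2 := neg_abs_le (u : ℝ)
      rw [← ha] at k2
      linarith
    have ha2 : a ≤ 2 * v ^ 2 := by
      have : a ^ 2 ≤ (2 * v ^ 2) ^ 2 := by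
        calc a ^ 2 ≤ a ^ 2 * |(w : ℝ)| := le_mul_of_one_le_right (by positivity) hw1
          _ ≤ 4 * Y := h7
          _ = (2 * v ^ 2) ^ 2 := by rw [← hv4]; ring
      exact (abs_le_of_sq_le_sq' this (by positivity)).2
    refine ⟨(u, ρ), ?_, ?_, ?_⟩
    · rw [mem_union]
      rcases le_total a v with hav | hav
      · left
        rw [hB1, mem_product]
        refine ⟨mem_Icc_floor hav, mem_Icc_floor ?_⟩
        apply abs_le_of_sq_le_sq _ (by positivity)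
        have k1 : |(w : ℝ)| ≤ 4 * Y := by
          calc |(w : ℝ)| = 1 * |(w : ℝ)| := (one_mul _).symm
            _ ≤ a ^ 2 * |(w : ℝ)| := by
                gcongr
                exact one_le_pow₀ hu1
            _ ≤ 4 * Y := h7
        have k2 : v ≤ v ^ 4 := le_self_pow₀ hv1 (by norm_num)
        have k3 : 3 * (ρ : ℝ) ^ 2 ≤ 4 * v ^ 4 + 4 * v ^ 4 := by
          rw [hv4] at k2 ⊢
          linarith
        have k4 : 0 ≤ v ^ 4 := by positivity
        show (ρ : ℝ) ^ 2 ≤ (4 * v ^ 2) ^ 2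
        have k5 : (4 * v ^ 2) ^ 2 = 16 * v ^ 4 := by ring
        rw [k5]
        linarith
      · right
        rw [hB2, mem_product]
        refine ⟨mem_Icc_floor ha2, mem_Icc_floor ?_⟩
        apply abs_le_of_sq_le_sq _ (by positivity)
        have k1 : |(w : ℝ)| ≤ 4 * v ^ 2 := by
          have k2 : v ^ 2 * |(w : ℝ)| ≤ v ^ 2 * (4 * v ^ 2) := by
            calc v ^ 2 * |(w : ℝ)| ≤ a ^ 2 * |(w : ℝ)| := by gcongr
              _ ≤ 4 * Y := h7
              _ = v ^ 2 * (4 * v ^ 2) := by rw [← hv4]; ring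
          exact le_of_mul_le_mul_left k2 (by positivity)
        show (ρ : ℝ) ^ 2 ≤ (4 * v) ^ 2
        have k5 : (4 * v) ^ 2 = 16 * v ^ 2 := by ring
        rw [k5]
        linarith
    · show u + ρ ^ 2 = e.1
      rw [hu]
      ring
    · show 3 * e.1 * ρ - ρ ^ 3 = 2 * e.2
      linear_combination -hρ
  choose! g hg1 hg2 using hcov
  have hinj : Set.InjOn g S := by
    intro e he f hf hef
    have h1 := hg2 e he
    have h2 := hg2 f hf
    rw [hef] at h1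
    have h3 : e.1 = f.1 := h1.1.symm.trans h2.1
    have h4 : 2 * e.2 = 2 * f.2 := by
      rw [← h1.2, ← h2.2, h3]
    exact Prod.ext h3 (by omega)
  have h1 : S.card ≤ (B1 ∪ B2).card := card_le_card_of_injOn g hg1 hinj
  have h2 := card_union_le B1 B2
  have h3 : (B1.card : ℝ) ≤ (2 * v + 1) * (2 * (4 * v ^ 2) + 1) := box_card (by positivity) (by positivity)
  have h4 : (B2.card : ℝ) ≤ (2 * (2 * v ^ 2) + 1) * (2 * (4 * v) + 1) :=
    box_card (by positivity) (by positivity)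
  have h5 : (S.card : ℝ) ≤ B1.card + B2.card := by exact_mod_cast h1.trans h2
  rw [hv3]
  have h6 : v ≤ v ^ 3 := le_self_pow₀ hv1 (by norm_num)
  have h7 : v ^ 2 ≤ v ^ 3 := pow_le_pow_right₀ hv1 (by norm_num)
  have h8 : 1 ≤ v ^ 3 := one_le_pow₀ hv1
  nlinarith

end Pool.Agent.Zk16.M
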