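import Pool.Agent.Zk16.M.Stms
import Pool.Agent.Zk16.X.I

/-! Integral points on Mordell curves: small `d`. -/

set_option autoImplicit false

namespace Pool.Agent.Zk16.M

open Finset Pool.Agent.Zk16.X

theorem t_SMD (hCTA : S_CTA) (hRED : S_RED) : S_SMD := by
  classical
  intro ε hε
  obtain ⟨K, hK, hR⟩ := hRED
  set ε' : ℝ := min ε 1 with hε'
  have he0 : 0 < ε' := lt_min hε one_pos
  have he1 : ε' ≤ 1 := min_le_right _ _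
  have heε : ε' ≤ ε := min_le_left _ _
  obtain ⟨C2, hC2, h2⟩ := hCTA ε' he0
  set K₁ : ℝ := 108 * K with hK₁
  have hK₁1 : 1 ≤ K₁ := by rw [hK₁]; linarith
  refine ⟨162 * K₁ ^ 4 * C2 * (4 * K₁ ^ 2 * K ^ 4), ?_, ?_⟩
  · have e1 : 1 ≤ K₁ ^ 4 := one_le_pow₀ hK₁1
    have e2 : 1 ≤ K₁ ^ 2 := one_le_pow₀ hK₁1
    have e3 : 1 ≤ K ^ 4 := one_le_pow₀ hK
    have e4 : 1 ≤ K₁ ^ 4 * C2 := by nlinarith
    have e5 : 1 ≤ K₁ ^ 2 * K ^ 4 := by nlinarith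
    nlinarith
  intro Y B₀ S hY hB₀ hS
  have hB00 : 0 < B₀ := by linarith
  have hY0 : 0 < Y := by linarith
  set M : ℝ := K₁ * Y with hM
  have hM1 : 1 ≤ M := by rw [hM]; nlinarith
  set B : ℝ := K * B₀ ^ ((1 : ℝ) / 6) with hB
  have hB1 : 1 ≤ B := by
    have : 1 ≤ B₀ ^ ((1 : ℝ) / 6) := Real.one_le_rpow hB₀ (by norm_num)
    rw [hB]; nlinarith
  have hN1 : 1 ≤ 4 * M * B ^ 3 := by
    have : 1 ≤ B ^ 3 := one_le_pow₀ hB1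
    nlinarith
  have hdata : ∀ e ∈ S, ∃ (cs : Bool) (a b c d p q : ℤ), Rep M B 1 e.1 e.2 cs a b c d p q := by
    intro e he
    obtain ⟨k1, k2, k3, k4⟩ := hS e he
    have hdisc : Disc 1 0 (-3 * e.1) (2 * e.2) = 108 * (e.1 ^ 3 - e.2 ^ 2) := by
      simp only [Disc]
      ring
    obtain ⟨a, b, c, d, p, q, hr⟩ := rep_core hK hR e.1 e.2 1 0 1 1 0 (-3 * e.1) (2 * e.2)
      (108 * Y) 1 false one_ne_zero (by norm_num) k1 (by norm_num) (by norm_num) (by ring)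
      (by ring) k2 (by
        rw [hdisc]
        push_cast at k3 ⊢
        rw [abs_mul, abs_of_pos (by norm_num : (0 : ℝ) < 108)]
        linarith) (by simp [rad]) (by simp; ring) (by simp; ring) isCoprime_one_left
    have hMM : K * (108 * Y) = M := by rw [hM, hK₁]; ring
    have hBB : K * (max (|(e.1 : ℝ)| ^ 3) ((e.2 : ℝ) ^ 2)) ^ ((1 : ℝ) / 6) ≤ B := by
      rw [hB]
      have := Real.rpow_le_rpow (le_max_of_le_right (sq_nonneg _)) k4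
        (by norm_num : (0 : ℝ) ≤ 1 / 6)
      gcongr
    rw [hMM] at hr
    refine ⟨false, a, b, c, d, p, q, hr.nz, hr.ha, hr.hb, hr.hc, hr.hd,
      ⟨hr.good.1, hr.good.2.1.trans hBB, hr.good.2.2.1.trans hBB, hr.good.2.2.2⟩, ?_,
      hr.hx, hr.hy⟩
    have := hr.rd
    push_cast at this
    exact this
  have key := rep_count M B 1 (C2 * 1 * (M * B * (4 * M * B ^ 3)) ^ ε') (by linarith)
    (by positivity) S hdata (by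
      intro a b c d T ha hb hc hd hnz hT
      apply h2 a b c d M B (4 * M * B ^ 3) 1 T hM1 hB1 hN1 le_rfl ha hb hc hd hnz
      intro t ht
      obtain ⟨g1, g2⟩ := hT t ht
      refine ⟨g1, ?_, g2⟩
      have p1 := g1.2.1
      have p2 := g1.2.2.1
      have hM0 : 0 ≤ M := by linarith
      have hB0 : 0 ≤ B := by linarith
      have e : ((F a b c d t.1 t.2 : ℤ) : ℝ) = a * (t.1 : ℝ) ^ 3 + b * (t.1 : ℝ) ^ 2 * t.2 +
          c * t.1 * (t.2 : ℝ) ^ 2 + d * (t.2 : ℝ) ^ 3 := by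
        simp only [F]; push_cast; ring
      rw [e]
      have q1 : |(a : ℝ) * (t.1 : ℝ) ^ 3| ≤ M * B ^ 3 := by
        rw [abs_mul, abs_pow]; gcongr
      have q2 : |(b : ℝ) * (t.1 : ℝ) ^ 2 * t.2| ≤ M * B ^ 3 := by
        rw [abs_mul, abs_mul, abs_pow]
        calc |(b : ℝ)| * |(t.1 : ℝ)| ^ 2 * |(t.2 : ℝ)| ≤ M * B ^ 2 * B := by gcongr
          _ = _ := by ring
      have q3 : |(c : ℝ) * (t.1 : ℝ) * (t.2 : ℝ) ^ 2| ≤ M * B ^ 3 := by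
        rw [abs_mul, abs_mul, abs_pow]
        calc |(c : ℝ)| * |(t.1 : ℝ)| * |(t.2 : ℝ)| ^ 2 ≤ M * B * B ^ 2 := by gcongr
          _ = _ := by ring
      have q4 : |(d : ℝ) * (t.2 : ℝ) ^ 3| ≤ M * B ^ 3 := by
        rw [abs_mul, abs_pow]; gcongr
      have s1 := abs_add_le ((a : ℝ) * (t.1 : ℝ) ^ 3 + b * (t.1 : ℝ) ^ 2 * t.2 +
          c * t.1 * (t.2 : ℝ) ^ 2) (d * (t.2 : ℝ) ^ 3)
      have s2 := abs_add_le ((a : ℝ) * (t.1 : ℝ) ^ 3 + b * (t.1 : ℝ) ^ 2 * t.2)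
          (c * t.1 * (t.2 : ℝ) ^ 2)
      have s3 := abs_add_le ((a : ℝ) * (t.1 : ℝ) ^ 3) (b * (t.1 : ℝ) ^ 2 * t.2)
      linarith)
  have hM4 : (2 * M + 1) ^ 4 ≤ 81 * M ^ 4 := by
    calc (2 * M + 1) ^ 4 ≤ (3 * M) ^ 4 := by
          apply pow_le_pow_left₀ (by positivity); linarith
      _ = _ := by ring
  have hb6 : (B₀ ^ ((1 : ℝ) / 6)) ^ 4 = B₀ ^ ((2 : ℝ) / 3) := by
    rw [← Real.rpow_natCast, ← Real.rpow_mul hB00.le]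
    norm_num
  have hpow : (M * B * (4 * M * B ^ 3)) ^ ε' ≤ 4 * K₁ ^ 2 * K ^ 4 * Y ^ 2 * B₀ ^ ε := by
    have f1 : M * B * (4 * M * B ^ 3) = (4 * K₁ ^ 2 * K ^ 4 * Y ^ 2) * B₀ ^ ((2 : ℝ) / 3) := by
      rw [← hb6, hM, hB]
      ring
    have hL1 : 1 ≤ 4 * K₁ ^ 2 * K ^ 4 * Y ^ 2 := by
      have e2 : 1 ≤ K₁ ^ 2 := one_le_pow₀ hK₁1
      have e3 : 1 ≤ K ^ 4 := one_le_pow₀ hK
      have e4 : 1 ≤ Y ^ 2 := one_le_pow₀ hY
      have e5 : 1 ≤ K₁ ^ 2 * K ^ 4 := by nlinarith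
      have e6 : 1 ≤ K₁ ^ 2 * K ^ 4 * Y ^ 2 := by nlinarith
      linarith
    rw [f1, Real.mul_rpow (by positivity) (by positivity), ← Real.rpow_mul hB00.le]
    have f2 : (4 * K₁ ^ 2 * K ^ 4 * Y ^ 2) ^ ε' ≤ 4 * K₁ ^ 2 * K ^ 4 * Y ^ 2 := by
      calc (4 * K₁ ^ 2 * K ^ 4 * Y ^ 2) ^ ε' ≤ (4 * K₁ ^ 2 * K ^ 4 * Y ^ 2) ^ (1 : ℝ) :=
            Real.rpow_le_rpow_of_exponent_le hL1 he1
        _ = _ := Real.rpow_one _
    have f3 : B₀ ^ ((2 : ℝ) / 3 * ε') ≤ B₀ ^ ε :=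
      Real.rpow_le_rpow_of_exponent_le hB₀ (by linarith)
    gcongr
  have hY10 : Y ^ 4 * Y ^ 2 ≤ Y ^ 10 := by
    rw [← pow_add]
    exact pow_le_pow_right₀ hY (by norm_num)
  calc (S.card : ℝ) ≤ 2 * (2 * M + 1) ^ 4 * (C2 * 1 * (M * B * (4 * M * B ^ 3)) ^ ε') := key
    _ ≤ 2 * (81 * M ^ 4) * (C2 * 1 * (4 * K₁ ^ 2 * K ^ 4 * Y ^ 2 * B₀ ^ ε)) := by gcongr
    _ = 162 * K₁ ^ 4 * C2 * (4 * K₁ ^ 2 * K ^ 4) * (Y ^ 4 * Y ^ 2) * B₀ ^ ε := by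
        rw [hM]; ring
    _ ≤ _ := by gcongr

end Pool.Agent.Zk16.M
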