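import Pool.Agent.Zk16.M.Rdu

/-! Integral points on Mordell curves: small abscissas. -/

set_option autoImplicit false

namespace Pool.Agent.Zk16.M

open Finset Pool.Agent.Zk16.X

theorem piece {Y X₂ q : ℝ} (hY : 0 ≤ Y) (hX : 0 ≤ X₂) (hq : 0 < q) (T : Finset (ℤ × ℤ))
    (hT : ∀ e ∈ T, 0 < e.2 ∧ |((e.1 ^ 3 - e.2 ^ 2 : ℤ) : ℝ)| ≤ Y ∧ |(e.1 : ℝ)| ≤ X₂ ∧
      q ^ 2 ≤ (e.1 : ℝ) ^ 3 ∧ 2 * Y ≤ (e.1 : ℝ) ^ 3) :
    (T.card : ℝ) ≤ (2 * X₂ + 1) * (2 * (2 * Y / q) + 1) := by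
  classical
  set f : ℤ × ℤ → ℤ × ℤ := fun e => (e.1, e.2 - ⌈√((e.1 : ℝ) ^ 3 - Y)⌉) with hf
  have hinj : Set.InjOn f T := by
    intro e _ e' _ h
    simp only [hf, Prod.mk.injEq] at h
    obtain ⟨h1, h2⟩ := h
    rw [h1] at h2
    exact Prod.ext h1 (by omega)
  have hmap : ∀ e ∈ T, f e ∈ Icc (-⌊X₂⌋) ⌊X₂⌋ ×ˢ Icc (-⌊2 * Y / q⌋) ⌊2 * Y / q⌋ := by
    intro e he
    obtain ⟨h1, h2, h3, h4, h5⟩ := hT e he
    rw [mem_product]
    refine ⟨mem_Icc_floor h3, mem_Icc_floor ?_⟩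
    set s : ℝ := √((e.1 : ℝ) ^ 3 - Y) with hs
    have hs2 : s ^ 2 = (e.1 : ℝ) ^ 3 - Y := Real.sq_sqrt (by linarith)
    have hs0 : 0 ≤ s := Real.sqrt_nonneg _
    have hy0 : (0 : ℝ) < e.2 := by exact_mod_cast h1
    push_cast at h2
    obtain ⟨h6, h7⟩ := abs_le.mp h2
    have h8 : s ≤ e.2 := by
      apply Real.sqrt_le_iff.mpr ⟨hy0.le, by linarith⟩
    have h9 : ⌈s⌉ ≤ e.2 := Int.ceil_le.mpr h8
    have h10 : q ≤ e.2 + s := by
      have k1 : q ^ 2 ≤ ((e.2 : ℝ) + s) ^ 2 := by nlinarith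
      exact (abs_le_of_sq_le_sq' k1 (by positivity)).2
    have h11 : (e.2 : ℝ) - s ≤ 2 * Y / q := by
      rw [le_div_iff₀ hq]
      have k1 : ((e.2 : ℝ) - s) * q ≤ ((e.2 : ℝ) - s) * (e.2 + s) := by
        apply mul_le_mul_of_nonneg_left h10
        linarith
      nlinarith
    have h12 : (s : ℝ) ≤ ⌈s⌉ := Int.le_ceil s
    show |((e.2 - ⌈s⌉ : ℤ) : ℝ)| ≤ 2 * Y / q
    push_cast
    have h13 : (⌈s⌉ : ℝ) ≤ e.2 := by exact_mod_cast h9
    rw [abs_of_nonneg (by linarith)]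
    linarith
  have h1 : T.card ≤ (Icc (-⌊X₂⌋) ⌊X₂⌋ ×ˢ Icc (-⌊2 * Y / q⌋) ⌊2 * Y / q⌋).card :=
    card_le_card_of_injOn f hmap hinj
  have h2 : 0 ≤ 2 * Y / q := by positivity
  calc (T.card : ℝ) ≤ (((Icc (-⌊X₂⌋) ⌊X₂⌋ ×ˢ Icc (-⌊2 * Y / q⌋) ⌊2 * Y / q⌋).card : ℕ) : ℝ) := by
        exact_mod_cast h1
    _ ≤ _ := box_card hX h2

theorem piece2 {Y X₂ q : ℝ} (hY : 0 ≤ Y) (hX : 0 ≤ X₂) (hq : 0 < q) (T : Finset (ℤ × ℤ))
    (hT : ∀ e ∈ T, e.2 ≠ 0 ∧ |((e.1 ^ 3 - e.2 ^ 2 : ℤ) : ℝ)| ≤ Y ∧ |(e.1 : ℝ)| ≤ X₂ ∧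
      q ^ 2 ≤ (e.1 : ℝ) ^ 3 ∧ 2 * Y ≤ (e.1 : ℝ) ^ 3) :
    (T.card : ℝ) ≤ 2 * ((2 * X₂ + 1) * (2 * (2 * Y / q) + 1)) := by
  classical
  set T1 := T.filter (fun e => 0 < e.2) with hT1
  set T2 := (T.filter (fun e => ¬ 0 < e.2)).image (fun e => (e.1, -e.2)) with hT2
  have h1 : T1.card + T2.card = T.card := by
    rw [hT2, card_image_of_injOn, hT1]
    · exact Finset.card_filter_add_card_filter_not _
    · intro e _ f _ h
      simp only [Prod.mk.injEq, neg_inj] at h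
      exact Prod.ext h.1 h.2
  have b1 : (T1.card : ℝ) ≤ (2 * X₂ + 1) * (2 * (2 * Y / q) + 1) := by
    apply piece hY hX hq
    intro e he
    obtain ⟨he, k⟩ := mem_filter.mp he
    exact ⟨k, (hT e he).2⟩
  have b2 : (T2.card : ℝ) ≤ (2 * X₂ + 1) * (2 * (2 * Y / q) + 1) := by
    apply piece hY hX hq
    intro e he
    obtain ⟨f, hf, rfl⟩ := mem_image.mp he
    obtain ⟨hf, k⟩ := mem_filter.mp hf
    obtain ⟨k1, k2, k3, k4, k5⟩ := hT f hf
    refine ⟨?_, ?_, k3, k4, k5⟩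
    · show 0 < -f.2
      omega
    · simpa using k2
  have h2 : (T.card : ℝ) = T1.card + T2.card := by exact_mod_cast h1.symm
  linarith

theorem t_SMX : S_SMX := by
  classical
  refine ⟨5000, by norm_num, ?_⟩
  intro Y S hY hS
  have hY0 : 0 < Y := by linarith
  set v : ℝ := Y ^ ((1 : ℝ) / 100) with hv
  have hv1 : 1 ≤ v := Real.one_le_rpow hY (by norm_num)
  have hv0 : 0 < v := by linarith
  have hpw : ∀ k : ℕ, v ^ k = Y ^ ((k : ℝ) / 100) := by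
    intro k
    rw [hv, ← Real.rpow_natCast, ← Real.rpow_mul hY0.le]
    congr 1
    ring
  have hY100 : Y = v ^ 100 := by
    rw [hpw 100]
    norm_num
  have h52 : Y ^ ((13 : ℝ) / 25) = v ^ 52 := by
    rw [hpw 52]
    norm_num
  have h95 : Y ^ ((19 : ℝ) / 20) = v ^ 95 := by
    rw [hpw 95]
    norm_num
  have hmono : ∀ i j : ℕ, i ≤ j → v ^ i ≤ v ^ j := fun i j h => pow_le_pow_right₀ hv1 h
  set S0 := S.filter (fun e => |(e.1 : ℝ)| ≤ 2 * v ^ 34) with hS0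
  set SA := S.filter (fun e => ¬ |(e.1 : ℝ)| ≤ 2 * v ^ 34 ∧ |(e.1 : ℝ)| ≤ v ^ 42) with hSA
  set SB := S.filter (fun e => ¬ |(e.1 : ℝ)| ≤ 2 * v ^ 34 ∧ ¬ |(e.1 : ℝ)| ≤ v ^ 42) with hSB
  have hcov : S ⊆ (S0 ∪ SA) ∪ SB := by
    intro e he
    by_cases k1 : |(e.1 : ℝ)| ≤ 2 * v ^ 34
    · exact mem_union_left _ (mem_union_left _ (mem_filter.mpr ⟨he, k1⟩))
    by_cases k2 : |(e.1 : ℝ)| ≤ v ^ 42
    · exact mem_union_left _ (mem_union_right _ (mem_filter.mpr ⟨he, k1, k2⟩))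
    · exact mem_union_right _ (mem_filter.mpr ⟨he, k1, k2⟩)
  -- the large abscissas are positive
  have hlarge : ∀ e ∈ S, ¬ |(e.1 : ℝ)| ≤ 2 * v ^ 34 → 0 < (e.1 : ℝ) ∧ e.2 ≠ 0 ∧
      8 * v ^ 102 ≤ (e.1 : ℝ) ^ 3 := by
    intro e he hn
    push Not at hn
    obtain ⟨h1, -⟩ := hS e he
    push_cast at h1
    rw [hY100] at h1
    obtain ⟨h2, h3⟩ := abs_le.mp h1
    have h4 : 8 * v ^ 102 ≤ |(e.1 : ℝ)| ^ 3 := by
      calc 8 * v ^ 102 = (2 * v ^ 34) ^ 3 := by ring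
        _ ≤ |(e.1 : ℝ)| ^ 3 := pow_le_pow_left₀ (by positivity) hn.le 3
    have h5 : v ^ 100 ≤ v ^ 102 := hmono _ _ (by norm_num)
    have h6 : 0 < v ^ 100 := by positivity
    have hpos : 0 < (e.1 : ℝ) := by
      by_contra hc
      push Not at hc
      rw [abs_of_nonpos hc] at h4
      have h7 : (-(e.1 : ℝ)) ^ 3 = -(e.1 : ℝ) ^ 3 := by ring
      rw [h7] at h4
      nlinarith [sq_nonneg (e.2 : ℝ)]
    rw [abs_of_pos hpos] at h4
    refine ⟨hpos, ?_, h4⟩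
    intro h0
    rw [h0] at h3
    push_cast at h3
    linarith
  have b0 : (S0.card : ℝ) ≤ 35 * v ^ 95 := by
    have hsub : S0 ⊆ Icc (-⌊2 * v ^ 34⌋) ⌊2 * v ^ 34⌋ ×ˢ Icc (-⌊3 * v ^ 51⌋) ⌊3 * v ^ 51⌋ := by
      intro e he
      obtain ⟨he, k⟩ := mem_filter.mp he
      obtain ⟨h1, -⟩ := hS e he
      rw [mem_product]
      refine ⟨mem_Icc_floor k, mem_Icc_floor ?_⟩
      apply abs_le_of_sq_le_sq _ (by positivity)
      push_cast at h1
      rw [hY100] at h1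
      obtain ⟨h2, h3⟩ := abs_le.mp h1
      have h4 : (e.1 : ℝ) ^ 3 ≤ 8 * v ^ 102 := by
        calc (e.1 : ℝ) ^ 3 ≤ |(e.1 : ℝ) ^ 3| := le_abs_self _
          _ = |(e.1 : ℝ)| ^ 3 := abs_pow _ _
          _ ≤ (2 * v ^ 34) ^ 3 := pow_le_pow_left₀ (abs_nonneg _) k 3
          _ = 8 * v ^ 102 := by ring
      have h5 : v ^ 100 ≤ v ^ 102 := hmono _ _ (by norm_num)
      have h6 : (3 * v ^ 51) ^ 2 = 9 * v ^ 102 := by ring
      rw [h6]
      linarith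
    have h1 : (S0.card : ℝ) ≤ (2 * (2 * v ^ 34) + 1) * (2 * (3 * v ^ 51) + 1) := by
      refine le_trans ?_ (box_card (by positivity) (by positivity))
      exact_mod_cast card_le_card hsub
    have e1 : 1 ≤ v ^ 34 := one_le_pow₀ hv1
    have e2 : 1 ≤ v ^ 51 := one_le_pow₀ hv1
    have e3 : v ^ 34 * v ^ 51 ≤ v ^ 95 := by
      rw [← pow_add]
      exact hmono _ _ (by norm_num)
    calc (S0.card : ℝ) ≤ (2 * (2 * v ^ 34) + 1) * (2 * (3 * v ^ 51) + 1) := h1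
      _ ≤ (5 * v ^ 34) * (7 * v ^ 51) := by
          apply mul_le_mul <;> first | positivity | linarith
      _ = 35 * (v ^ 34 * v ^ 51) := by ring
      _ ≤ _ := by linarith
  have bA : (SA.card : ℝ) ≤ 18 * v ^ 95 := by
    have h1 := piece2 (Y := Y) (X₂ := v ^ 42) (q := 2 * v ^ 51) hY0.le (by positivity)
      (by positivity) SA (by
        intro e he
        obtain ⟨he, k1, k2⟩ := mem_filter.mp he
        obtain ⟨g1, g2, g3⟩ := hlarge e he k1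
        have h5 : v ^ 100 ≤ v ^ 102 := hmono _ _ (by norm_num)
        have h6 : 0 < v ^ 102 := by positivity
        refine ⟨g2, (hS e he).1, k2, ?_, ?_⟩
        · have : (2 * v ^ 51) ^ 2 = 4 * v ^ 102 := by ring
          rw [this]
          linarith
        · rw [hY100]
          linarith)
    have e1 : 1 ≤ v ^ 42 := one_le_pow₀ hv1
    have e2 : 1 ≤ v ^ 49 := one_le_pow₀ hv1
    have e3 : 2 * Y / (2 * v ^ 51) = v ^ 49 := by
      rw [hY100, div_eq_iff (by positivity)]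
      ring
    have e4 : v ^ 42 * v ^ 49 ≤ v ^ 95 := by
      rw [← pow_add]
      exact hmono _ _ (by norm_num)
    rw [e3] at h1
    calc (SA.card : ℝ) ≤ 2 * ((2 * v ^ 42 + 1) * (2 * v ^ 49 + 1)) := h1
      _ ≤ 2 * ((3 * v ^ 42) * (3 * v ^ 49)) := by
          apply mul_le_mul_of_nonneg_left _ (by norm_num)
          apply mul_le_mul <;> first | positivity | linarith
      _ = 18 * (v ^ 42 * v ^ 49) := by ring
      _ ≤ _ := by linarith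
  have bB : (SB.card : ℝ) ≤ 4010 * v ^ 95 := by
    have h1 := piece2 (Y := Y) (X₂ := 200 * v ^ 52) (q := v ^ 63) hY0.le (by positivity)
      (by positivity) SB (by
        intro e he
        obtain ⟨he, k1, k2⟩ := mem_filter.mp he
        obtain ⟨g1, g2, g3⟩ := hlarge e he k1
        have h5 : v ^ 100 ≤ v ^ 102 := hmono _ _ (by norm_num)
        have h6 : 0 < v ^ 102 := by positivity
        push Not at k2
        rw [abs_of_pos g1] at k2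
        refine ⟨g2, (hS e he).1, ?_, ?_, ?_⟩
        · rw [← h52]
          exact (hS e he).2
        · calc (v ^ 63) ^ 2 = (v ^ 42) ^ 3 := by ring
            _ ≤ (e.1 : ℝ) ^ 3 := pow_le_pow_left₀ (by positivity) k2.le 3
        · rw [hY100]
          linarith)
    have e1 : 1 ≤ v ^ 52 := one_le_pow₀ hv1
    have e2 : 1 ≤ v ^ 37 := one_le_pow₀ hv1
    have e3 : 2 * Y / v ^ 63 = 2 * v ^ 37 := by
      rw [hY100, div_eq_iff (by positivity)]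
      ring
    have e4 : v ^ 52 * v ^ 37 ≤ v ^ 95 := by
      rw [← pow_add]
      exact hmono _ _ (by norm_num)
    rw [e3] at h1
    calc (SB.card : ℝ) ≤ 2 * ((2 * (200 * v ^ 52) + 1) * (2 * (2 * v ^ 37) + 1)) := h1
      _ ≤ 2 * ((401 * v ^ 52) * (5 * v ^ 37)) := by
          apply mul_le_mul_of_nonneg_left _ (by norm_num)
          apply mul_le_mul <;> first | positivity | linarith
      _ = 4010 * (v ^ 52 * v ^ 37) := by ring
      _ ≤ _ := by linarith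
  have k1 := card_le_card hcov
  have k2 := card_union_le (S0 ∪ SA) SB
  have k3 := card_union_le S0 SA
  have k4 : (S.card : ℝ) ≤ S0.card + SA.card + SB.card := by
    exact_mod_cast (by omega : S.card ≤ S0.card + SA.card + SB.card)
  rw [h95]
  have h9 : 0 < v ^ 95 := by positivity
  linarith

end Pool.Agent.Zk16.M
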