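import Pool.Agent.Zk16.Y.Stms
import Pool.Agent.Zk16.X.Stms2

/-!
Integral points on Mordell curves (MP_9d7cd1_nt): statements of the modules.

Goal: for every `A` there are `0 < c < 1`, `C` such that for `Z ≥ 1` at most `C Z ^ (1 - c)` integral points `(x, y)`
with `|x| ≤ Z ^ A` lie on all curves `y ^ 2 = x ^ 3 + d`, `0 < |d| ≤ Z`.
-/

set_option autoImplicit false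

namespace Pool.Agent.Zk16.M

/-- the cubic `ρ³ - 3 x ρ + 2 y` has no integral root -/
def Irr (x y : ℤ) : Prop := ∀ ρ : ℤ, ρ ^ 3 - 3 * x * ρ + 2 * y ≠ 0

/-- SMD: the points for small `d`. -/
def S_SMD : Prop := ∀ ε : ℝ, 0 < ε → ∃ C : ℝ, 1 ≤ C ∧ ∀ (Y B : ℝ) (S : Finset (ℤ × ℤ)), 1 ≤ Y →
  1 ≤ B → (∀ e ∈ S, e.1 ^ 3 ≠ e.2 ^ 2 ∧ Irr e.1 e.2 ∧ |((e.1 ^ 3 - e.2 ^ 2 : ℤ) : ℝ)| ≤ Y ∧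
    max (|(e.1 : ℝ)| ^ 3) ((e.2 : ℝ) ^ 2) ≤ B) → (S.card : ℝ) ≤ C * Y ^ 10 * B ^ ε

/-- SMX: the points with small abscissa. -/
def S_SMX : Prop := ∃ C : ℝ, 1 ≤ C ∧ ∀ (Y : ℝ) (S : Finset (ℤ × ℤ)), 1 ≤ Y →
  (∀ e ∈ S, |((e.1 ^ 3 - e.2 ^ 2 : ℤ) : ℝ)| ≤ Y ∧ |(e.1 : ℝ)| ≤ 200 * Y ^ ((13 : ℝ) / 25)) →
  (S.card : ℝ) ≤ C * Y ^ ((19 : ℝ) / 20)

/-- RDU: the points whose cubic has an integral root. -/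
def S_RDU : Prop := ∃ C : ℝ, 1 ≤ C ∧ ∀ (Y : ℝ) (S : Finset (ℤ × ℤ)), 1 ≤ Y →
  (∀ e ∈ S, e.1 ^ 3 ≠ e.2 ^ 2 ∧ ¬ Irr e.1 e.2 ∧ |((e.1 ^ 3 - e.2 ^ 2 : ℤ) : ℝ)| ≤ Y) →
  (S.card : ℝ) ≤ C * Y ^ ((3 : ℝ) / 4)

end Pool.Agent.Zk16.M
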